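import Pool.Agent.Run7.h932.DS.Gen

/-!
# MP_e50225_co: all orientations of almost all graphs have dichromatic number at most (1/2 + ε) Δ / log Δ

Let `ε, K > 0`, `Δ` large and `n` large. For EVERY degree sequence `d` on `n` vertices with all degrees
at most `Δ` and sum at least `n`, all simple graphs `G` with the degrees `d`, but a proportion of at
most `n^(-K)`, have the property that EVERY orientation of `G` has dichromatic number at most
`(1/2 + ε) Δ / log Δ`. The same holds for the class of all graphs of maximum degree at most `Δ`, and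
for the graphs of any class `P` of graphs which contains the graphs of large girth (triangle-free
graphs, `F`-free graphs for a graph `F` with a cycle, all graphs).

Proof. The chromatic number of the underlying graph: the library of `GivenDegreesAndGirth` on the
page MP_ef9bc2_co (`Pool/Agent/Run7/h932/DS/Gen.lean`; configuration model, second moment by a mean field
bound, isoperimetry, repair, switchings), written by helper59, helper381, helper441, helper594, helper228,
helper150, helper477, helper574, helper332, helper862, helper722 and helper932.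
-/

set_option autoImplicit false

namespace Pool.Agent.Results.MP_e50225_co.AlmostAllOrientations

/-- `D` is an oriented graph with the underlying graph `G`. -/
def IsOrientation {V : Type} (G : SimpleGraph V) (D : Digraph V) : Prop :=
  (∀ u v, D.Adj u v → ¬ D.Adj v u) ∧ ∀ u v, G.Adj u v ↔ (D.Adj u v ∨ D.Adj v u)

/-- The dichromatic number of `D` is at most `(1/2 + ε) Δ / log Δ`: there is a colouring `c` with at
most that many colours such that each colour class is acyclic (`f` increases along the arcs inside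
the colour classes; the same form as in the frozen statement of the page). -/
def SmallDichromatic {V : Type} (D : Digraph V) (Δ : ℕ) (ε : ℝ) : Prop :=
  ∃ (k : ℕ) (c : V → Fin k) (f : V → ℕ),
    (k : ℝ) ≤ (1 / 2 + ε) * ((Δ : ℝ) / Real.log (Δ : ℝ)) ∧
      ∀ u v, D.Adj u v → c u = c v → f u < f v

/-- Every orientation of `G` has dichromatic number at most `(1/2 + ε) Δ / log Δ`. -/
def AllOrientations {V : Type} (G : SimpleGraph V) (Δ : ℕ) (ε : ℝ) : Prop :=
  ∀ D : Digraph V, IsOrientation G D → SmallDichromatic D Δ ε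

/-- Every cycle of `G` has length more than `g`. -/
def NoShortCycle {V : Type} (G : SimpleGraph V) (g : ℕ) : Prop :=
  ∀ (x : V) (c : G.Walk x x), c.IsCycle → g < c.length

/-- The graphs on `n` vertices of maximum degree at most `Δ`. -/
def MaxDegree {n : ℕ} (Δ : ℕ) : Set (SimpleGraph (Fin n)) :=
  {G | ∀ x, (G.neighborSet x).ncard ≤ Δ}

/-- The graphs with the degrees `d`. -/
def WithDegrees {n : ℕ} (d : Fin n → ℕ) : Set (SimpleGraph (Fin n)) :=
  {G | ∀ x, (G.neighborSet x).ncard = d x}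

/-- All graphs `G` in `S`, but a proportion of at most `n^(-K)`, satisfy `AllOrientations`. -/
def AlmostAll {n : ℕ} (S : Set (SimpleGraph (Fin n))) (Δ : ℕ) (ε K : ℝ) : Prop :=
  ({G | G ∈ S ∧ ¬ AllOrientations G Δ ε}.ncard : ℝ) ≤ (n : ℝ) ^ (-K) * S.ncard

open Classical in
theorem filter_adj {n : ℕ} (G : SimpleGraph (Fin n)) (x : Fin n) :
    (Finset.univ.filter fun y => G.Adj x y).card = (G.neighborSet x).ncard := by
  rw [Set.ncard_eq_toFinset_card']
  congr 1
  ext y
  simp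

theorem deg_iff {n : ℕ} {d : Fin n → ℕ} {G : SimpleGraph (Fin n)} :
    Run7.h932.DS.Deg G d ↔ G ∈ WithDegrees d := by
  unfold Run7.h932.DS.Deg WithDegrees
  simp only [filter_adj]
  exact Iff.rfl

theorem dgs_eq {n : ℕ} (G : SimpleGraph (Fin n)) (x : Fin n) :
    Run7.h932.DS.dgs G x = (G.neighborSet x).ncard := by
  classical
  rw [← filter_adj]
  unfold Run7.h932.DS.dgs
  congr 1

theorem max_iff {n Δ : ℕ} {G : SimpleGraph (Fin n)} :
    (∀ x, Run7.h932.DS.dgs G x ≤ Δ) ↔ G ∈ MaxDegree Δ := by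
  simp only [dgs_eq]
  exact Iff.rfl

theorem le_of_filter {n : ℕ} (S T : Set (SimpleGraph (Fin n)))
    (p r : SimpleGraph (Fin n) → Prop) (hp : DecidablePred p) (hr : DecidablePred r) (κ : ℝ)
    (hκ : 0 ≤ κ)
    (h : ((Finset.univ.filter p).card : ℝ) ≤ κ * ((Finset.univ.filter r).card : ℝ))
    (hS : ∀ G ∈ S, p G) (hT : ∀ G, r G → G ∈ T) : (S.ncard : ℝ) ≤ κ * (T.ncard : ℝ) := by
  have h1 : S.ncard ≤ (Finset.univ.filter p).card := by
    rw [← Set.ncard_coe_finset]
    exact Set.ncard_le_ncard (fun G hG => by simpa using hS G hG) (Set.toFinite _)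
  have h2 : (Finset.univ.filter r).card ≤ T.ncard := by
    rw [← Set.ncard_coe_finset]
    exact Set.ncard_le_ncard (fun G hG => hT G (by simpa using hG)) (Set.toFinite _)
  calc (S.ncard : ℝ) ≤ ((Finset.univ.filter p).card : ℝ) := by exact_mod_cast h1
    _ ≤ κ * ((Finset.univ.filter r).card : ℝ) := h
    _ ≤ κ * (T.ncard : ℝ) := mul_le_mul_of_nonneg_left (by exact_mod_cast h2) hκ

/-- `Δ / log Δ` is large for large `Δ`. -/
theorem large (M : ℝ) (hM : 0 < M) : ∃ Δ₀ : ℕ, ∀ Δ : ℕ, Δ₀ ≤ Δ →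
    M ≤ (Δ : ℝ) / Real.log (Δ : ℝ) := by
  have h := Real.isLittleO_log_id_atTop.def (show (0 : ℝ) < 1 / M by positivity)
  have h2 := tendsto_natCast_atTop_atTop (R := ℝ) |>.eventually h
  obtain ⟨N, hN⟩ := Filter.eventually_atTop.1 h2
  refine ⟨max N 2, fun Δ hΔ => ?_⟩
  have h3 := hN Δ ((le_max_left _ _).trans hΔ)
  have h4 : (2 : ℝ) ≤ Δ := by exact_mod_cast (le_max_right _ _).trans hΔ
  have h5 : 0 < Real.log (Δ : ℝ) := Real.log_pos (by linarith)
  rw [Real.norm_of_nonneg h5.le, id, Real.norm_of_nonneg (by linarith), one_div,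
    inv_mul_eq_div, le_div_iff₀ hM] at h3
  rw [le_div_iff₀ h5]
  linarith

/-- **All orientations of almost all graphs have dichromatic number at most
`(1/2 + ε) Δ / log Δ`.** -/
theorem result :
    ∀ ε K : ℝ, 0 < ε → 0 < K → ∃ Δ₀ : ℕ, ∀ Δ : ℕ, Δ₀ ≤ Δ → ∀ g : ℕ,
      ∃ n₀ : ℕ, ∀ n : ℕ, n₀ ≤ n → ∀ P : Set (SimpleGraph (Fin n)),
        (∀ G, NoShortCycle G g → G ∈ MaxDegree Δ → G ∈ P) →
        AlmostAll (P ∩ MaxDegree Δ) Δ ε K ∧
        ∀ d : Fin n → ℕ, (∀ x, d x ≤ Δ) → n ≤ ∑ x, d x →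
          (Even (∑ x, d x) → (P ∩ WithDegrees d).Nonempty) ∧
            AlmostAll (P ∩ WithDegrees d) Δ ε K := by
  classical
  intro ε K hε hK
  obtain ⟨Δ₁, h⟩ := Run7.h932.DS.gen_all (ε / 2) K (by positivity) hK
  obtain ⟨Δ₂, h2⟩ := large (3 + 2 / ε) (by positivity)
  refine ⟨max Δ₁ Δ₂, fun Δ hΔ g => ?_⟩
  have hX := h2 Δ ((le_max_right _ _).trans hΔ)
  set X : ℝ := (Δ : ℝ) / Real.log (Δ : ℝ) with hXd
  have hε2 : 0 < 2 / ε := by positivity
  have hX3 : 3 ≤ X := by linarith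
  have hXε : 1 ≤ ε / 2 * X := by
    have h1 : 2 / ε ≤ X := by linarith
    rw [div_le_iff₀ hε] at h1
    linarith
  set q : ℕ := ⌈(1 / 2 + ε / 2) * X⌉₊ with hq
  have hq1 : (1 / 2 + ε / 2) * X ≤ q := Nat.le_ceil _
  have hq2 : (q : ℝ) ≤ (1 / 2 + ε) * X := by
    have := Nat.ceil_lt_add_one (show 0 ≤ (1 / 2 + ε / 2) * X by positivity)
    rw [← hq] at this
    nlinarith
  have hq3 : 2 ≤ q := by
    have h1 : (1 : ℝ) < q := by nlinarith
    have h2 : 1 < q := by exact_mod_cast h1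
    omega
  obtain ⟨n₀, h⟩ := h Δ (max g 3) q ((le_max_left _ _).trans hΔ) (le_max_right _ _) hq1 hq3
  refine ⟨n₀, fun n hn P hP => ?_⟩
  have hκ : 0 ≤ (n : ℝ) ^ (-K) := by positivity
  obtain ⟨a1, a2⟩ := h n hn (fun G => G ∈ P) (fun G b1 b2 => hP G
    (fun x c hc => lt_of_le_of_lt (le_max_left g 3) (b1 x c hc)) (max_iff.1 b2))
  have hcol : ∀ G : SimpleGraph (Fin n), ¬ AllOrientations G Δ ε → ¬ G.Colorable q := by
    rintro G hG ⟨C⟩
    apply hG
    intro D hD
    refine ⟨q, fun x => C x, fun _ => 0, hq2, fun u v huv hc => ?_⟩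
    exact absurd hc (C.valid ((hD.2 u v).2 (Or.inl huv)))
  refine ⟨?_, fun d hd hdn => ⟨fun hev => ?_, ?_⟩⟩
  · refine le_of_filter _ _ _ _ _ _ _ hκ a2 ?_ ?_
    · rintro G ⟨⟨b1, b2⟩, b3⟩
      exact ⟨max_iff.2 b2, b1, hcol G b3⟩
    · rintro G ⟨b1, b2⟩
      exact ⟨b2, max_iff.1 b1⟩
  · obtain ⟨G, b1, b2⟩ := (a1 d hd hdn).1 hev
    exact ⟨G, b2, deg_iff.1 b1⟩
  · refine le_of_filter _ _ _ _ _ _ _ hκ (a1 d hd hdn).2 ?_ ?_
    · rintro G ⟨⟨b1, b2⟩, b3⟩
      exact ⟨deg_iff.2 b2, b1, hcol G b3⟩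
    · rintro G ⟨b1, b2⟩
      exact ⟨b2, deg_iff.1 b1⟩

end Pool.Agent.Results.MP_e50225_co.AlmostAllOrientations
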